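import Pool.Agent.H16.FK.TargetsB

/-!
# TDP: the types of the random array depend only on the pattern (MP_5607ba_lc)
-/

set_option autoImplicit false

namespace Pool.Agent.H48.FKI

open Set Pool.Agent.H75.HCI Pool.Agent.H41.HI Pool.Agent.H16.FK

/-- the items of a box program -/
theorem mem_box {n s : ℕ} {a : ℕ × ℕ × ℕ} : a ∈ box n s ↔
    a.1 < n ∧ ((a.2.1 = 0 ∧ a.2.2 = 0) ∨ (a.2.1 = 1 ∧ a.2.2 < s) ∨ (a.2.1 = 2 ∧ a.2.2 = 0)) := by
  obtain ⟨i, b, m⟩ := a
  unfold box
  rw [List.mem_flatMap]
  constructor
  · rintro ⟨i', hi', h⟩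
    rw [List.mem_range] at hi'
    rw [List.mem_append, List.mem_cons, List.mem_map, List.mem_singleton] at h
    rcases h with (h | ⟨m', hm', h⟩) | h
    · obtain ⟨rfl, rfl, rfl⟩ := by simpa only [Prod.mk.injEq] using h
      exact ⟨hi', Or.inl ⟨rfl, rfl⟩⟩
    · obtain ⟨rfl, rfl, rfl⟩ := by simpa only [Prod.mk.injEq] using h
      exact ⟨hi', Or.inr (Or.inl ⟨rfl, List.mem_range.1 hm'⟩)⟩
    · obtain ⟨rfl, rfl, rfl⟩ := by simpa only [Prod.mk.injEq] using h
      exact ⟨hi', Or.inr (Or.inr ⟨rfl, rfl⟩)⟩
  · rintro ⟨hi, h⟩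
    simp only at hi h
    refine ⟨i, List.mem_range.2 hi, ?_⟩
    rw [List.mem_append, List.mem_cons, List.mem_map, List.mem_singleton]
    rcases h with ⟨rfl, rfl⟩ | ⟨rfl, hm⟩ | ⟨rfl, rfl⟩
    · exact Or.inl (Or.inl rfl)
    · exact Or.inl (Or.inr ⟨m, List.mem_range.2 hm, rfl⟩)
    · exact Or.inr rfl

theorem prg_box (n s : ℕ) : Prg ∅ (box n s) := by
  refine ⟨?_, ?_, ?_, ?_⟩
  · unfold box
    rw [List.pairwise_flatMap]
    constructor
    · intro i _
      rw [List.cons_append, List.pairwise_cons]
      constructor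
      · intro a ha
        rw [List.mem_append, List.mem_map, List.mem_singleton] at ha
        rcases ha with ⟨m, _, rfl⟩ | rfl
        · exact Or.inr ⟨rfl, Or.inl Nat.zero_lt_one⟩
        · exact Or.inr ⟨rfl, Or.inl Nat.zero_lt_two⟩
      · rw [List.pairwise_append]
        refine ⟨?_, List.pairwise_singleton _ _, ?_⟩
        · rw [List.pairwise_map]
          refine List.pairwise_lt_range.imp ?_
          intro a b hab
          exact Or.inr ⟨rfl, Or.inr ⟨rfl, hab⟩⟩
        · intro a ha b hb
          rw [List.mem_map] at ha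
          rw [List.mem_singleton] at hb
          obtain ⟨m, _, rfl⟩ := ha
          rw [hb]
          exact Or.inr ⟨rfl, Or.inl Nat.one_lt_two⟩
    · refine List.pairwise_lt_range.imp ?_
      intro i i' hii x hx y hy
      have h1 : x.1 = i := by
        rw [List.mem_append, List.mem_cons, List.mem_map, List.mem_singleton] at hx
        rcases hx with (rfl | ⟨m, _, rfl⟩) | rfl <;> rfl
      have h2 : y.1 = i' := by
        rw [List.mem_append, List.mem_cons, List.mem_map, List.mem_singleton] at hy
        rcases hy with (rfl | ⟨m, _, rfl⟩) | rfl <;> rfl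
      exact Or.inl (by rw [h1, h2]; exact hii)
  · intro a ha
    rw [mem_box] at ha
    omega
  · intro a _ b hb
    exact absurd hb (Set.notMem_empty b)
  · intro a ha
    left
    rw [mem_box] at ha ⊢
    exact ⟨ha.1, Or.inl ⟨rfl, rfl⟩⟩

theorem itp_mem_box {kc ku k : ℕ} {l : List (Idx (kc + ku) k)} {n : ℕ} (hn : bnd l ≤ n)
    {p : Idx (kc + ku) k} (hp : p ∈ l) : itp p ∈ box n n := by
  have h1 : p.1 + 1 + Sum.elim (fun _ => 0) (fun q => q.1 + 1) p.2 ≤ bnd l :=
    List.le_sum_of_mem (List.mem_map_of_mem hp)
  obtain ⟨i, q⟩ := p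
  rw [mem_box]
  rcases q with b | ⟨m, y⟩
  · have h2 : i + 1 + 0 ≤ bnd l := h1
    refine ⟨by change i < n; omega, ?_⟩
    by_cases hb : b.val < kc
    · left
      constructor
      · simp [itp, hb]
      · simp [itp, hb]
    · right; right
      constructor
      · simp [itp, hb]
      · simp [itp, hb]
  · have h2 : i + 1 + (m + 1) ≤ bnd l := h1
    refine ⟨by change i < n; omega, Or.inr (Or.inl ⟨rfl, ?_⟩)⟩
    change m < n
    omega

theorem sel_of_lt {α : Type} (L : List α) (W : List ℕ) (hW : ∀ i ∈ W, i < L.length) (w : List ℕ) :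
    sel (sel L W) w = sel L (sel W w) := by
  have h1 : (sel L W).map some = W.map fun i => L[i]? := by
    unfold sel
    induction W with
    | nil => rfl
    | cons a W ih =>
      have hal : a < L.length := hW a (List.mem_cons_self ..)
      have ha : L[a]? = some L[a] := List.getElem?_eq_getElem hal
      rw [List.filterMap_cons, ha, List.map_cons, List.map_cons,
        ih fun i hi => hW i (List.mem_cons_of_mem _ hi), ha]
  unfold sel at h1 ⊢
  induction w with
  | nil => rfl
  | cons a w ih =>
    rw [List.filterMap_cons, List.filterMap_cons]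
    have h2 : (List.map some (List.filterMap (fun i => L[i]?) W))[a]? =
        (W.map fun i => L[i]?)[a]? := by rw [h1]
    rw [List.getElem?_map, List.getElem?_map] at h2
    rcases hWa : W[a]? with _ | i
    · rw [hWa] at h2
      have h3 : (List.filterMap (fun i => L[i]?) W)[a]? = none := by
        rcases h4 : (List.filterMap (fun i => L[i]?) W)[a]? with _ | x
        · rfl
        · rw [h4] at h2
          simp at h2
      rw [h3]
      exact ih
    · rw [hWa] at h2
      have hi : i < L.length := hW i (List.mem_of_getElem? hWa)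
      have h5 : L[i]? = some L[i] := List.getElem?_eq_getElem hi
      have h3 : (List.filterMap (fun i => L[i]?) W)[a]? = some L[i] := by
        rcases h4 : (List.filterMap (fun i => L[i]?) W)[a]? with _ | x
        · rw [h4] at h2
          simp at h2
        · rw [h4] at h2
          simp only [Option.map_some, Option.some.injEq] at h2
          rw [h2, h5]
      rw [h3]
      simp only [List.filterMap_cons, h5]
      rw [ih]

/-- the places in a list with marks -/
def plc (nz nl : ℕ) (w : List ℕ) : List ℕ :=
  List.range nz ++ (w.filter fun i => decide (i < nl)).map fun i => nz + i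

theorem sel_plc {α : Type} (z l : List α) (w : List ℕ) :
    z ++ sel l w = sel (z ++ l) (plc z.length l.length w) := by
  unfold plc
  have h1 : sel (z ++ l) (List.range z.length ++
      (w.filter fun i => decide (i < l.length)).map fun i => z.length + i) =
      sel (z ++ l) (List.range z.length) ++
        sel (z ++ l) ((w.filter fun i => decide (i < l.length)).map fun i => z.length + i) := by
    unfold sel
    rw [List.filterMap_append]
  rw [h1]
  congr 1
  · conv_lhs => rw [← sel_range z]
    unfold sel
    refine List.filterMap_congr fun i hi => ?_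
    rw [List.getElem?_append_left (List.mem_range.1 hi)]
  · rw [← sel_filter l w l.length rfl]
    unfold sel
    rw [List.filterMap_map]
    refine List.filterMap_congr fun i _ => ?_
    change l[i]? = (z ++ l)[z.length + i]?
    rw [List.getElem?_append_right (Nat.le_add_right _ _), Nat.add_sub_cancel_left]

theorem plc_lt {nz nl : ℕ} {w : List ℕ} {i : ℕ} (hi : i ∈ plc nz nl w) : i < nz + nl := by
  unfold plc at hi
  rw [List.mem_append, List.mem_range, List.mem_map] at hi
  rcases hi with h | ⟨j, hj, rfl⟩
  · omega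
  · have h2 := (List.mem_filter.1 hj).2
    simp only [decide_eq_true_eq] at h2
    omega

theorem pf_TDP (hDIS : T_DIS) (hTDV : T_TDV) : T_TDP := by
  intro C kc ku k M D hM
  constructor
  · intro h A hA l hl
    funext w
    obtain ⟨n, hn⟩ : ∃ n, n = bnd l + bnd (l.map h) := ⟨_, rfl⟩
    have hP := prg_box n n
    have h1 : ∀ p ∈ l, itp p ∈ box n n := fun p hp => itp_mem_box (by omega) hp
    have h2 : ∀ p ∈ l.map h, itp p ∈ box n n := fun p hp => itp_mem_box (by omega) hp
    have hpat : PatOn h {p | p ∈ l} :=
      ⟨fun p hp => hA.kd p (hl p hp), fun p hp q hq => hA.ord p (hl p hp) q (hl q hq),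
        fun p hp q hq => hA.mem p (hl p hp) q (hl q hq)⟩
    have h3 := hDIS kc ku k D ∅ st0 st0 l h (box n n) (box n n) hpat hP hP
      (fun p _ hp => absurd hp (Set.notMem_empty _))
      (fun c hc => absurd hc (Set.notMem_empty _))
      (fun p hp _ => ⟨h1 p hp, h2 (h p) (List.mem_map_of_mem hp)⟩)
      (fun p _ hp => absurd hp (Set.notMem_empty _))
      (fun p _ _ => Set.notMem_empty _)
      (fun t => M (sel (D.z ++ t) w) = TD M D (l.map h) w)
    have h4 := h3.2 (hTDV C kc ku k M D hM (l.map h) (box n n) hP h2 st0 w)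
    have h5 := hTDV C kc ku k M D hM l (box n n) hP h1 st0 w
    obtain ⟨s, hs1, hs2⟩ := (h4.and h5).exists
    rw [← hs2, ← hs1]
  · have key : ∀ (l : List (Idx (kc + ku) k)) (w w1 : List ℕ), TD M D (sel l w) w1 =
        TD M D l (sel (plc D.z.length l.length w) w1) := by
      intro l w w1
      obtain ⟨n, hn⟩ : ∃ n, n = bnd l + bnd (sel l w) := ⟨_, rfl⟩
      have hP := prg_box n n
      have h1 : ∀ p ∈ l, itp p ∈ box n n := fun p hp => itp_mem_box (by omega) hp
      have h2 : ∀ p ∈ sel l w, itp p ∈ box n n := fun p hp => itp_mem_box (by omega) hp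
      have h4 := hTDV C kc ku k M D hM (sel l w) (box n n) hP h2 st0 w1
      have h5 := hTDV C kc ku k M D hM l (box n n) hP h1 st0
        (sel (plc D.z.length l.length w) w1)
      obtain ⟨s, hs1, hs2⟩ := (h4.and h5).exists
      rw [← hs1, ← hs2, ← sel_map, sel_plc, List.length_map, sel_of_lt]
      intro i hi
      rw [List.length_append, List.length_map]
      exact plc_lt hi
    intro l l' w hll h
    funext w1
    rw [key l w w1, key l' w w1, h, hll]

end Pool.Agent.H48.FKI
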