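import Pool.Agent.H16.FK.TargetsB

/-!
# TY1: the last factor of a product of ultrafilters may be replaced (MP_5607ba_lc)
-/

set_option autoImplicit false

namespace Pool.Agent.H48.FKI

open Set Pool.Agent.H75.HCI Pool.Agent.H41.HI Pool.Agent.H16.FK

theorem pf_TY1 (hTYP : T_TYP) : T_TY1 := by
  intro C I J M hM U V V' h
  funext l
  have h1 := hTYP C I J M hM U V l
  have h2 := hTYP C I J M hM U V' l
  obtain ⟨x, hx1, hx2⟩ := (h1.and h2).exists
  rw [← hx1, ← hx2, h]

end Pool.Agent.H48.FKI
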